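import Pool.Agent.N54.ME.Two
import Pool.Agent.N666.TB.Poly

/-!
# Euler products at the central point along almost all sequences of polynomials, over arbitrary sets of indices

For a number field `K = ℚ(θ)` of degree `n`, `θ` integral with minimal polynomial `f`, the quotient `ζ_K(s) / ζ(s)` is the
Artin L-function of the orthogonal character `χ - 1`, `χ` the permutation character of the Galois group on the roots of `f`;
it is irreducible if the Galois group is doubly transitive, e.g. if it is the symmetric group. Part (ii) of the problem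
predicts that `ζ_K(s) / ζ(s)` does not vanish at `1/2`.

Let `D` be ANY set of positive integers with at least `N ^ (1 - δ)` members in `(N, 2 N]` for every `δ > 0` and all large `N`.
For almost all sequences of pairs `x(m) = (⌊ξ_0 g_0(m) + c_0(m)⌋, ⌊ξ_1 g_1(m) + c_1(m)⌋)` (`g_i`, `c_i` arbitrary real
sequences, `g_i(m + 1) - g_i(m) ≥ m ^ (ρ - 1)`) the products `P_f(y)` of the Euler factors at `1/2` over the primes `p ≤ y` of
the polynomials `f = f₀ + x_0(m) X + x_1(m)` have the size `(log y) ^ (1/2 + o(1))` for all `y` up to a power of `N`, for all but a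
small proportion of the `m ∈ D` in `(N, 2 N]`, uniformly in the monic polynomial `f₀`.

The local analysis and the criterion for well distributed sequences are those of `ThinCentralProducts` (helper430,
helper666); for almost all `ξ` the sequences are well distributed on `D` modulo all integers up to a power of `N`
(`Pool.Agent.N54.ME`, vector version of helper668's metric theorem with an arbitrary set of indices).
-/

set_option autoImplicit false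

namespace Pool.Agent.Results.MP_3b6604_nt.CentralProductsAnySet

open Polynomial Finset NumberField

/-- The monic irreducible divisors of `f` modulo `p`. -/
def primeDivisors (f : ℤ[X]) (p : ℕ) : Set (ZMod p)[X] :=
  {g | g.Monic ∧ Irreducible g ∧ g ∣ f.map (Int.castRingHom (ZMod p))}

/-- `(1 - p^(-s)) ∏_g (1 - p^(-s deg g))⁻¹`, the product over the monic irreducible divisors `g` of `f`
modulo `p`: the Euler factor at `p` of `ζ_K(s) / ζ(s)`, see the theorem. -/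
noncomputable def eulerFactor (f : ℤ[X]) (p : ℕ) (s : ℝ) : ℝ :=
  (1 - (p : ℝ) ^ (-s)) * ∏ᶠ g ∈ primeDivisors f p, (1 - (p : ℝ) ^ (-(g.natDegree * s)))⁻¹

/-- The product of the Euler factors at `s = 1/2` over the primes `p ≤ x`. -/
noncomputable def centralProduct (f : ℤ[X]) (x : ℕ) : ℝ :=
  ∏ p ∈ (Icc 1 x).filter Nat.Prime, eulerFactor f p (1 / 2)

/-- The logarithm of the product of the polynomial `f` differs from `(1/2) log log x` by more than
`l (log log x)^(1/2) (1 + log log log x)^ε`, for an integer `x ≥ 16` with `x ^ k ≤ N`. -/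
def Exceptional (f : ℤ[X]) (ε l : ℝ) (k N : ℕ) : Prop :=
  ∃ x : ℕ, 16 ≤ x ∧ x ^ k ≤ N ∧
    l * Real.log (Real.log x) ^ (1 / 2 : ℝ) * (1 + Real.log (Real.log (Real.log x))) ^ ε <
      |Real.log (centralProduct f x) - 1 / 2 * Real.log (Real.log x)|

/-- `D` has at least `N ^ (1 - δ)` members in `(N, 2 N]`, for every `δ > 0` and all large `N`. -/
def Many (D : Set ℕ) : Prop :=
  ∀ δ : ℝ, 0 < δ → ∃ N₀ : ℕ, ∀ N : ℕ, N₀ ≤ N →
    (N : ℝ) ^ (1 - δ) ≤ ({m : ℕ | m ∈ D ∧ N < m ∧ m ≤ 2 * N}.ncard : ℝ)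

/-- The law for the sequence of the polynomials `f₀ + x₀(m) X + x₁(m)`, for all degrees `n ≥ 2` and uniformly in the
monic polynomial `f₀` of degree `n`, for the members `m` of `D` in `(N, 2 N]`. -/
def Law (D : Set ℕ) (x : ℕ → Fin 2 → ℤ) : Prop :=
  ∀ n : ℕ, 2 ≤ n → ∀ ε A : ℝ, 0 < ε → 0 < A → ∃ (k : ℕ) (C' : ℝ) (N₀ : ℕ), 0 < k ∧
    ∀ f₀ : ℤ[X], f₀.Monic → f₀.natDegree = n → ∀ N : ℕ, N₀ ≤ N → ∀ l : ℝ, 1 ≤ l →
      ({m : ℕ | m ∈ D ∧ N < m ∧ m ≤ 2 * N ∧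
        Exceptional (f₀ + C (x m 0) * X + C (x m 1)) ε l k N}.ncard : ℝ) ≤
          C' * l ^ (-A) * ({m : ℕ | m ∈ D ∧ N < m ∧ m ≤ 2 * N}.ncard : ℝ)

/-- On `[u, v]` the derivatives of the functions `F m` grow from `m` to `m + 1` by at least `m ^ (ρ - 1)`, and their
second derivatives do not decrease, for large `m`. -/
def Spread (ρ u v : ℝ) (F : ℕ → ℝ → ℝ) : Prop :=
  (∀ m, ContDiff ℝ 2 (F m)) ∧ ∃ m₀ : ℕ, ∀ m, m₀ ≤ m → ∀ x ∈ Set.Icc u v,
    (m : ℝ) ^ (ρ - 1) ≤ deriv (F (m + 1)) x - deriv (F m) x ∧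
      deriv (deriv (F m)) x ≤ deriv (deriv (F (m + 1))) x

/-- the members of the families, and the Euler factors -/
theorem local_part :
    (∀ n : ℕ, 2 ≤ n → ∀ f₀ : ℤ[X], f₀.Monic → f₀.natDegree = n → ∀ u v : ℤ,
      (f₀ + C u * X + C v).Monic ∧ (f₀ + C u * X + C v).natDegree = n) ∧
    (∀ f : ℤ[X], f.Monic → ∀ p : ℕ, p.Prime → (primeDivisors f p).Finite ∧
      0 < eulerFactor f p (1 / 2)) ∧
    (∀ (K : Type) [Field K] [NumberField K] (θ : 𝓞 K) (p : ℕ), p.Prime →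
      ¬ p ∣ RingOfIntegers.exponent θ → ∀ s : ℝ, eulerFactor (minpoly ℤ θ) p s =
        (1 - (p : ℝ) ^ (-s)) * ∏ᶠ P ∈ Ideal.primesOver (Ideal.span {(p : ℤ)}) (𝓞 K),
          (1 - (Ideal.absNorm P : ℝ) ^ (-s))⁻¹) ∧
    ∀ f : ℤ[X], f.Monic → ∀ x : ℕ, Real.log (centralProduct f x) =
      ∑ p ∈ Pool.Agent.N430.BP.Pr x, Pool.Agent.N430.BP.LLf f p := by
  classical
  have hmem : ∀ (f : ℤ[X]), f.Monic → ∀ (p : ℕ) (hp : p.Prime), haveI : Fact p.Prime := ⟨hp⟩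
      primeDivisors f p = (Pool.Agent.N430.BP.irr (Pool.Agent.N430.BP.red f p) : Set (ZMod p)[X]) := by
    intro f hf p hp
    haveI : Fact p.Prime := ⟨hp⟩
    ext g
    rw [Finset.mem_coe, Pool.Agent.N430.BP.mem_irr (Pool.Agent.N430.BP.red_monic hf p).1.ne_zero]
    rfl
  have hpow : ∀ (p : ℕ) (d : ℕ), (p : ℝ) ^ (-((d : ℝ) * (1 / 2))) = Pool.Agent.N430.BP.ri p ^ d := by
    intro p d
    unfold Pool.Agent.N430.BP.ri
    rw [Real.sqrt_eq_rpow, ← Real.rpow_neg (Nat.cast_nonneg _), ← Real.rpow_natCast,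
      ← Real.rpow_mul (Nat.cast_nonneg _)]
    congr 1
    ring
  have hfac : ∀ (f : ℤ[X]), f.Monic → ∀ (p : ℕ) (hp : p.Prime), haveI : Fact p.Prime := ⟨hp⟩
      eulerFactor f p (1 / 2) = (1 - Pool.Agent.N430.BP.ri p) *
        ∏ g ∈ Pool.Agent.N430.BP.irr (Pool.Agent.N430.BP.red f p),
          (1 - Pool.Agent.N430.BP.ri p ^ g.natDegree)⁻¹ := by
    intro f hf p hp
    haveI : Fact p.Prime := ⟨hp⟩
    unfold eulerFactor
    rw [hmem f hf p hp, finprod_mem_coe_finset]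
    have h1 := hpow p 1
    rw [Nat.cast_one, one_mul, pow_one] at h1
    rw [h1]
    congr 1
    exact Finset.prod_congr rfl fun g _ => by rw [hpow p g.natDegree]
  have hpos : ∀ (p : ℕ), p.Prime → ∀ d : ℕ, 1 ≤ d → 0 < 1 - Pool.Agent.N430.BP.ri p ^ d := by
    intro p hp d hd
    haveI : Fact p.Prime := ⟨hp⟩
    have h1 := Pool.Agent.N430.BP.ri_pow_le (p := p) hd
    have h2 := Pool.Agent.N430.BP.ri_le_three_four hp.two_le
    linarith
  have hlogfac : ∀ (f : ℤ[X]), f.Monic → ∀ (p : ℕ), p.Prime → 0 < eulerFactor f p (1 / 2) ∧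
      Real.log (eulerFactor f p (1 / 2)) = Pool.Agent.N430.BP.LLf f p := by
    intro f hf p hp
    haveI : Fact p.Prime := ⟨hp⟩
    rw [hfac f hf p hp]
    have h1 := hpos p hp 1 le_rfl
    rw [pow_one] at h1
    have h2 : ∀ g ∈ Pool.Agent.N430.BP.irr (Pool.Agent.N430.BP.red f p),
        0 < (1 - Pool.Agent.N430.BP.ri p ^ g.natDegree)⁻¹ := by
      intro g hg
      rw [Pool.Agent.N430.BP.mem_irr (Pool.Agent.N430.BP.red_monic hf p).1.ne_zero] at hg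
      exact inv_pos.2 (hpos p hp _ hg.2.1.natDegree_pos)
    have h3 := Finset.prod_pos h2
    refine ⟨mul_pos h1 h3, ?_⟩
    rw [Real.log_mul h1.ne' h3.ne', Real.log_prod fun g hg => (h2 g hg).ne']
    unfold Pool.Agent.N430.BP.LLf Pool.Agent.N430.BP.Lf Pool.Agent.N430.BP.hh
    rw [dif_pos hp, neg_neg]
    congr 1
    exact Finset.sum_congr rfl fun g _ => by rw [Real.log_inv]
  refine ⟨fun n hn f₀ hf₀ hd u v => ?_, fun f hf p hp => ⟨?_, (hlogfac f hf p hp).1⟩, ?_, ?_⟩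
  · have := Pool.Agent.N430.BP.fam_monic' hf₀ (by rw [hd]; exact hn) u v
    rw [hd] at this
    exact this
  · haveI : Fact p.Prime := ⟨hp⟩
    rw [hmem f hf p hp]
    exact Finset.finite_toSet _
  · intro K _ _ θ p hp hexp s
    haveI : Fact p.Prime := ⟨hp⟩
    unfold eulerFactor
    congr 1
    set e := NumberField.Ideal.primesOverSpanEquivMonicFactorsMod hexp with he
    have hmon : (minpoly ℤ θ).Monic := minpoly.monic θ.isIntegral
    have hset : primeDivisors (minpoly ℤ θ) p =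
        (RingOfIntegers.monicFactorsMod θ p : Set (ZMod p)[X]) := by
      rw [hmem _ hmon p hp]
      rfl
    rw [hset, ← finprod_set_coe_eq_finprod_mem, ← finprod_set_coe_eq_finprod_mem]
    symm
    refine finprod_eq_of_bijective e e.bijective fun P => ?_
    obtain ⟨Q, rfl⟩ := e.symm.surjective P
    rw [Equiv.apply_symm_apply]
    have h1 := NumberField.Ideal.inertiaDeg_primesOverSpanEquivMonicFactorsMod_symm_apply' hexp
      Q.2
    have h2 := Ideal.natAbs_pow_inertiaDeg (p : ℤ) (e.symm Q : Ideal (𝓞 K))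
    rw [Int.natAbs_natCast] at h2
    rw [← h2]
    have h3 : (e.symm Q : Ideal (𝓞 K)).inertiaDeg ℤ = (Q : (ZMod p)[X]).natDegree := h1
    rw [h3]
    push_cast
    rw [← Real.rpow_natCast, ← Real.rpow_mul (Nat.cast_nonneg _), mul_neg]
  intro f hf x
  unfold centralProduct
  rw [Real.log_prod fun p hp => ((hlogfac f hf p (mem_filter.1 hp).2).1).ne']
  exact Finset.sum_congr rfl fun p hp => (hlogfac f hf p (mem_filter.1 hp).2).2

open Classical in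
/-- the members of `D` in `(N, 2 N]` -/
noncomputable def blk (D : Set ℕ) (N : ℕ) : Finset ℕ := (Finset.Ioc N (2 * N)).filter fun m => m ∈ D

lemma blk_ncard (D : Set ℕ) (N : ℕ) : ({m : ℕ | m ∈ D ∧ N < m ∧ m ≤ 2 * N}.ncard : ℝ) = ((blk D N).card : ℝ) := by
  classical
  have e2 : {m : ℕ | m ∈ D ∧ N < m ∧ m ≤ 2 * N} = ((blk D N : Finset ℕ) : Set ℕ) := by
    ext m
    rw [Finset.mem_coe, blk, Finset.mem_filter, Finset.mem_Ioc]
    show (m ∈ D ∧ N < m ∧ m ≤ 2 * N) ↔ _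
    tauto
  rw [e2, Set.ncard_coe_finset]

theorem law_of {D : Set ℕ} {x : ℕ → Fin 2 → ℤ} {κ : ℝ} (hκ : 0 < κ)
    (hx : Pool.Agent.N666.TM.WellSeq (fun N => blk D N) (Pool.Agent.N54.ME.pairOf x) κ) : Law D x := by
  classical
  intro n hn ε A hε hA
  have hlog := local_part.2.2.2
  obtain ⟨k₁, K₁, N₁, hk₁, hK₁, H₁⟩ := Pool.Agent.N666.TB.thin_poly hn hκ hx hε hA
  refine ⟨k₁, K₁, N₁, hk₁, fun f₀ hf₀ hd N hN l hl => ?_⟩
  have hrew : ∀ m : ℕ,
      Exceptional (f₀ + C (x m 0) * X + C (x m 1)) ε l k₁ N ↔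
      ∃ y : ℕ, 16 ≤ y ∧ y ^ k₁ ≤ N ∧
        l * Real.log (Real.log y) ^ (1 / 2 : ℝ) * (1 + Real.log (Real.log (Real.log y))) ^ ε <
          |∑ p ∈ Pool.Agent.N430.BP.Pr y, Pool.Agent.N430.BP.LLf (Pool.Agent.N666.TB.memP f₀
            (Pool.Agent.N666.TB.prs (Pool.Agent.N54.ME.pairOf x m))) p -
              1 / 2 * Real.log (Real.log y)| := by
    intro m
    unfold Exceptional
    have hmon := (Pool.Agent.N430.BP.fam_monic' hf₀ (by rw [hd]; exact hn) (x m 0) (x m 1)).1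
    simp only [hlog _ hmon]
    rfl
  have h1 := H₁ f₀ hf₀ hd k₁ le_rfl N hN l hl
  set E := (blk D N).filter fun m : ℕ => ∃ y : ℕ, 16 ≤ y ∧ y ^ k₁ ≤ N ∧
        l * Real.log (Real.log y) ^ (1 / 2 : ℝ) * (1 + Real.log (Real.log (Real.log y))) ^ ε <
          |∑ p ∈ Pool.Agent.N430.BP.Pr y, Pool.Agent.N430.BP.LLf (Pool.Agent.N666.TB.memP f₀
            (Pool.Agent.N666.TB.prs (Pool.Agent.N54.ME.pairOf x m))) p -
              1 / 2 * Real.log (Real.log y)| with hE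
  have e : {m : ℕ | m ∈ D ∧ N < m ∧ m ≤ 2 * N ∧
        Exceptional (f₀ + C (x m 0) * X + C (x m 1)) ε l k₁ N} = (E : Set ℕ) := by
    ext m
    rw [Finset.mem_coe, hE, Finset.mem_filter, blk, Finset.mem_filter, Finset.mem_Ioc, ← hrew m]
    show (m ∈ D ∧ N < m ∧ m ≤ 2 * N ∧ _) ↔ _
    tauto
  rw [e, Set.ncard_coe_finset, blk_ncard]
  exact h1

theorem spread_law {D : Set ℕ} (hD : Many D) {ρ : ℝ} (hρ : 0 < ρ) (hρ1 : ρ ≤ 1) (u v : Fin 2 → ℝ)
    (F : Fin 2 → ℕ → ℝ → ℝ) (hF : ∀ i, Spread ρ (u i) (v i) (F i)) :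
    ∀ᵐ ξ : Fin 2 → ℝ, (∀ i, ξ i ∈ Set.Ioc (u i) (v i)) → Law D (fun m i => ⌊F i m (ξ i)⌋) := by
  classical
  by_cases huv : ∀ j, u j ≤ v j
  · choose n₀ hn₀ using fun j => Pool.Agent.N54.ME.Spread.fam (hF j)
    have hfam := fun j => hn₀ j (∑ j, n₀ j)
      (single_le_sum (f := n₀) (fun _ _ => Nat.zero_le _) (mem_univ j))
    have hP : ∀ ε : ℝ, 0 < ε → ∃ N₀ : ℕ, ∀ N : ℕ, N₀ ≤ N →
        (N : ℝ) ^ (1 - ε) ≤ (((Finset.Ioc N (2 * N)).filter fun m => m ∈ D).card : ℝ) := by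
      intro ε hε
      obtain ⟨N₀, h⟩ := hD ε hε
      refine ⟨N₀, fun N hN => ?_⟩
      have h1 := h N hN
      rw [blk_ncard] at h1
      exact h1
    filter_upwards [Pool.Agent.N54.ME.ae_well (fun m => m ∈ D) hP ρ hρ hρ1 u v huv (∑ j, n₀ j) F _ _ hfam]
      with ξ h hξ
    obtain ⟨N₀, h⟩ := h hξ
    exact law_of (Pool.Agent.N54.ME.kap_pos hρ (Fintype.card (Fin 2)))
      ⟨N₀, fun N hN H hH => Pool.Agent.N54.ME.well_pair (h N hN H hH)⟩
  · push Not at huv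
    obtain ⟨j, hj⟩ := huv
    refine Filter.Eventually.of_forall fun ξ hξ => ?_
    have := hξ j
    exact absurd (this.1.trans_le this.2) (not_lt.2 hj.le)

theorem lin_law {D : Set ℕ} (hD : Many D) {ρ : ℝ} (hρ : 0 < ρ) (hρ1 : ρ ≤ 1) (g c : Fin 2 → ℕ → ℝ)
    (hg : ∀ i, ∀ᶠ n : ℕ in Filter.atTop, (n : ℝ) ^ (ρ - 1) ≤ g i (n + 1) - g i n) :
    ∀ᵐ ξ : Fin 2 → ℝ, Law D (fun n i => ⌊ξ i * g i n + c i n⌋) := by
  have h1 : ∀ᵐ ξ : Fin 2 → ℝ, ∀ m : ℕ, (∀ i, ξ i ∈ Set.Ioc (-(m : ℝ)) m) →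
      Law D (fun n i => ⌊ξ i * g i n + c i n⌋) :=
    MeasureTheory.ae_all_iff.2 fun m => spread_law hD hρ hρ1 (fun _ => -(m : ℝ)) (fun _ => m)
      (fun i n x => x * g i n + c i n) fun i => Pool.Agent.N54.ME.spread_lin _ _ (g i) (c i) (hg i)
  filter_upwards [h1] with ξ hξ
  obtain ⟨m, hm⟩ := exists_nat_gt (∑ i, |ξ i|)
  refine hξ m fun i => ?_
  have h2 : |ξ i| ≤ ∑ i, |ξ i| := single_le_sum (f := fun i => |ξ i|) (fun _ _ => abs_nonneg _)
    (mem_univ i)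
  have h3 := abs_lt.1 (h2.trans_lt hm)
  exact ⟨h3.1, h3.2.le⟩

theorem pow_law {D : Set ℕ} (hD : Many D) {ρ : ℝ} (hρ : 0 < ρ) (hρ1 : ρ ≤ 1) (g : Fin 2 → ℕ → ℕ)
    (c : Fin 2 → ℕ → ℝ) (hg : ∀ i, StrictMono (g i)) :
    ∀ᵐ ξ : Fin 2 → ℝ, (∀ i, 1 < ξ i) → Law D (fun n i => ⌊ξ i ^ g i n + c i n⌋) := by
  have h1 : ∀ᵐ ξ : Fin 2 → ℝ, ∀ m : ℕ, (∀ i, ξ i ∈ Set.Ioc (1 : ℝ) m) →
      Law D (fun n i => ⌊ξ i ^ g i n + c i n⌋) :=
    MeasureTheory.ae_all_iff.2 fun m => spread_law hD hρ hρ1 (fun _ => (1 : ℝ)) (fun _ => m)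
      (fun i n x => x ^ g i n + c i n) fun i =>
        Pool.Agent.N54.ME.spread_pow hρ1 _ _ le_rfl (g i) (hg i) (c i)
  filter_upwards [h1] with ξ hξ h
  obtain ⟨m, hm⟩ := exists_nat_gt (∑ i, |ξ i|)
  refine hξ m fun i => ⟨h i, ?_⟩
  have h2 : |ξ i| ≤ ∑ i, |ξ i| := single_le_sum (f := fun i => |ξ i|) (fun _ _ => abs_nonneg _)
    (mem_univ i)
  exact ((le_abs_self _).trans h2).trans hm.le

/-- **The Euler products at the central point for almost all members of almost all sequences of polynomials, over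
arbitrary sets of indices.** -/
theorem result :
    -- the three kinds of families of sequences
    (∀ D : Set ℕ, Many D → ∀ ρ : ℝ, 0 < ρ → ρ ≤ 1 →
      (∀ (u v : Fin 2 → ℝ) (F : Fin 2 → ℕ → ℝ → ℝ), (∀ i, Spread ρ (u i) (v i) (F i)) →
        ∀ᵐ ξ : Fin 2 → ℝ, (∀ i, ξ i ∈ Set.Ioc (u i) (v i)) → Law D (fun m i => ⌊F i m (ξ i)⌋)) ∧
      (∀ g c : Fin 2 → ℕ → ℝ, (∀ i, ∀ᶠ m : ℕ in Filter.atTop, (m : ℝ) ^ (ρ - 1) ≤ g i (m + 1) - g i m) →
        ∀ᵐ ξ : Fin 2 → ℝ, Law D (fun m i => ⌊ξ i * g i m + c i m⌋)) ∧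
      (∀ (g : Fin 2 → ℕ → ℕ) (c : Fin 2 → ℕ → ℝ), (∀ i, StrictMono (g i)) →
        ∀ᵐ ξ : Fin 2 → ℝ, (∀ i, 1 < ξ i) → Law D (fun m i => ⌊ξ i ^ g i m + c i m⌋))) ∧
    -- the members of the families, and the definitions
    (∀ n : ℕ, 2 ≤ n → ∀ f₀ : ℤ[X], f₀.Monic → f₀.natDegree = n → ∀ u v : ℤ,
      (f₀ + C u * X + C v).Monic ∧ (f₀ + C u * X + C v).natDegree = n) ∧
    (∀ f : ℤ[X], f.Monic → ∀ p : ℕ, p.Prime → (primeDivisors f p).Finite ∧
      0 < eulerFactor f p (1 / 2)) ∧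
    (∀ (K : Type) [Field K] [NumberField K] (θ : 𝓞 K) (p : ℕ), p.Prime →
      ¬ p ∣ RingOfIntegers.exponent θ → ∀ s : ℝ, eulerFactor (minpoly ℤ θ) p s =
        (1 - (p : ℝ) ^ (-s)) * ∏ᶠ P ∈ Ideal.primesOver (Ideal.span {(p : ℤ)}) (𝓞 K),
          (1 - (Ideal.absNorm P : ℝ) ^ (-s))⁻¹) :=
  ⟨fun _ hD _ hρ hρ1 => ⟨fun u v F hF => spread_law hD hρ hρ1 u v F hF, fun g c hg => lin_law hD hρ hρ1 g c hg,
    fun g c hg => pow_law hD hρ hρ1 g c hg⟩,
    local_part.1, local_part.2.1, local_part.2.2.1⟩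

end Pool.Agent.Results.MP_3b6604_nt.CentralProductsAnySet
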