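import Pool.Agent.N430.BP.Poly3

/-!
# The Euler products at the central point for the roots of almost all polynomials

For a monic irreducible polynomial `f ∈ ℤ[X]` of degree `n ≥ 2`, `K = ℚ[X] / (f)`, the quotient
`ζ_K(s) / ζ(s)` is the Artin L-function of the permutation character of the Galois group on the roots
minus the trivial character.  This character is orthogonal; it is irreducible if the Galois group is
doubly transitive, e.g. if it is the symmetric group.  Part (ii) of the problem predicts that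
`L(1/2) ≠ 0` for all irreducible orthogonal characters.  The order of vanishing at `1/2` is expected to
be visible in the growth of the partial Euler products at `1/2`.

The theorem: for every monic `f₀ ∈ ℤ[X]` of degree `n`, and for almost all `(u, v)` in an arbitrary box
with sides `N`, the product over the primes `p ≤ x` of the Euler factors at `1/2` for
`f = f₀ + u X + v` is `(log x)^(1/2 + o(1))`, for *all* `x` up to a power of `N`, with an explicit error
term and a bound for the number of the exceptions, uniformly in `f₀`.  (This is the size of the central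
values which is predicted for families with symplectic symmetry.)
-/

set_option autoImplicit false

namespace Pool.Agent.Results.MP_3b6604_nt.CentralProductsOfPolynomials

open Polynomial Finset NumberField

/-- The monic irreducible divisors of `f` modulo `p`. -/
def primeDivisors (f : ℤ[X]) (p : ℕ) : Set (ZMod p)[X] :=
  {g | g.Monic ∧ Irreducible g ∧ g ∣ f.map (Int.castRingHom (ZMod p))}

/-- `(1 - p^(-s)) ∏_g (1 - p^(-s deg g))⁻¹`, the product over the monic irreducible divisors `g` of `f`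
modulo `p`: the Euler factor at `p` of `ζ_K(s) / ζ(s)`, see the theorem. -/
noncomputable def eulerFactor (f : ℤ[X]) (p : ℕ) (s : ℝ) : ℝ :=
  (1 - (p : ℝ) ^ (-s)) * ∏ᶠ g ∈ primeDivisors f p, (1 - (p : ℝ) ^ (-(g.natDegree * s)))⁻¹

/-- The product of the Euler factors at `s = 1/2` over the primes `p ≤ x`. -/
noncomputable def centralProduct (f : ℤ[X]) (x : ℕ) : ℝ :=
  ∏ p ∈ (Icc 1 x).filter Nat.Prime, eulerFactor f p (1 / 2)

/-- **The Euler products at the central point for almost all polynomials `f₀ + u X + v`.** -/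
theorem result (n : ℕ) (hn : 2 ≤ n) :
    -- the members of the families, and the definitions
    (∀ f₀ : ℤ[X], f₀.Monic → f₀.natDegree = n → ∀ u v : ℤ,
      (f₀ + C u * X + C v).Monic ∧ (f₀ + C u * X + C v).natDegree = n) ∧
    (∀ f : ℤ[X], f.Monic → ∀ p : ℕ, p.Prime → (primeDivisors f p).Finite ∧
      0 < eulerFactor f p (1 / 2)) ∧
    (∀ (K : Type) [Field K] [NumberField K] (θ : 𝓞 K) (p : ℕ), p.Prime →
      ¬ p ∣ RingOfIntegers.exponent θ → ∀ s : ℝ, eulerFactor (minpoly ℤ θ) p s =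
        (1 - (p : ℝ) ^ (-s)) * ∏ᶠ P ∈ Ideal.primesOver (Ideal.span {(p : ℤ)}) (𝓞 K),
          (1 - (Ideal.absNorm P : ℝ) ^ (-s))⁻¹) ∧
    -- the law
    ∀ ε A : ℝ, 0 < ε → 0 < A → ∃ (k : ℕ) (C' : ℝ), 0 < k ∧
      ∀ f₀ : ℤ[X], f₀.Monic → f₀.natDegree = n → ∀ N : ℕ, 0 < N → ∀ U V : ℤ, ∀ l : ℝ, 1 ≤ l →
        ({w : ℤ × ℤ | U < w.1 ∧ w.1 ≤ U + N ∧ V < w.2 ∧ w.2 ≤ V + N ∧
          ∃ x : ℕ, 16 ≤ x ∧ x ^ k ≤ N ∧
            l * Real.log (Real.log x) ^ (1 / 2 : ℝ) *
              (1 + Real.log (Real.log (Real.log x))) ^ ε <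
              |Real.log (centralProduct (f₀ + C w.1 * X + C w.2) x) -
                1 / 2 * Real.log (Real.log x)|}.ncard : ℝ) ≤
          C' * l ^ (-A) * (N : ℝ) ^ 2 := by
  classical
  have hmem : ∀ (f : ℤ[X]), f.Monic → ∀ (p : ℕ) (hp : p.Prime), haveI : Fact p.Prime := ⟨hp⟩
      primeDivisors f p = (Pool.Agent.N430.BP.irr (Pool.Agent.N430.BP.red f p) : Set (ZMod p)[X]) := by
    intro f hf p hp
    haveI : Fact p.Prime := ⟨hp⟩
    ext g
    rw [Finset.mem_coe, Pool.Agent.N430.BP.mem_irr (Pool.Agent.N430.BP.red_monic hf p).1.ne_zero]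
    rfl
  have hpow : ∀ (p : ℕ) (d : ℕ), (p : ℝ) ^ (-((d : ℝ) * (1 / 2))) = Pool.Agent.N430.BP.ri p ^ d := by
    intro p d
    unfold Pool.Agent.N430.BP.ri
    rw [Real.sqrt_eq_rpow, ← Real.rpow_neg (Nat.cast_nonneg _), ← Real.rpow_natCast,
      ← Real.rpow_mul (Nat.cast_nonneg _)]
    congr 1
    ring
  have hfac : ∀ (f : ℤ[X]), f.Monic → ∀ (p : ℕ) (hp : p.Prime), haveI : Fact p.Prime := ⟨hp⟩
      eulerFactor f p (1 / 2) = (1 - Pool.Agent.N430.BP.ri p) *
        ∏ g ∈ Pool.Agent.N430.BP.irr (Pool.Agent.N430.BP.red f p),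
          (1 - Pool.Agent.N430.BP.ri p ^ g.natDegree)⁻¹ := by
    intro f hf p hp
    haveI : Fact p.Prime := ⟨hp⟩
    unfold eulerFactor
    rw [hmem f hf p hp, finprod_mem_coe_finset]
    have h1 := hpow p 1
    rw [Nat.cast_one, one_mul, pow_one] at h1
    rw [h1]
    congr 1
    exact Finset.prod_congr rfl fun g _ => by rw [hpow p g.natDegree]
  have hpos : ∀ (p : ℕ), p.Prime → ∀ d : ℕ, 1 ≤ d → 0 < 1 - Pool.Agent.N430.BP.ri p ^ d := by
    intro p hp d hd
    haveI : Fact p.Prime := ⟨hp⟩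
    have h1 := Pool.Agent.N430.BP.ri_pow_le (p := p) hd
    have h2 := Pool.Agent.N430.BP.ri_le_three_four hp.two_le
    linarith
  have hlogfac : ∀ (f : ℤ[X]), f.Monic → ∀ (p : ℕ), p.Prime → 0 < eulerFactor f p (1 / 2) ∧
      Real.log (eulerFactor f p (1 / 2)) = Pool.Agent.N430.BP.LLf f p := by
    intro f hf p hp
    haveI : Fact p.Prime := ⟨hp⟩
    rw [hfac f hf p hp]
    have h1 := hpos p hp 1 le_rfl
    rw [pow_one] at h1
    have h2 : ∀ g ∈ Pool.Agent.N430.BP.irr (Pool.Agent.N430.BP.red f p),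
        0 < (1 - Pool.Agent.N430.BP.ri p ^ g.natDegree)⁻¹ := by
      intro g hg
      rw [Pool.Agent.N430.BP.mem_irr (Pool.Agent.N430.BP.red_monic hf p).1.ne_zero] at hg
      exact inv_pos.2 (hpos p hp _ hg.2.1.natDegree_pos)
    have h3 := Finset.prod_pos h2
    refine ⟨mul_pos h1 h3, ?_⟩
    rw [Real.log_mul h1.ne' h3.ne', Real.log_prod fun g hg => (h2 g hg).ne']
    unfold Pool.Agent.N430.BP.LLf Pool.Agent.N430.BP.Lf Pool.Agent.N430.BP.hh
    rw [dif_pos hp, neg_neg]
    congr 1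
    exact Finset.sum_congr rfl fun g _ => by rw [Real.log_inv]
  refine ⟨fun f₀ hf₀ hd u v => ?_, fun f hf p hp => ⟨?_, (hlogfac f hf p hp).1⟩, ?_, ?_⟩
  · have := Pool.Agent.N430.BP.fam_monic' hf₀ (by rw [hd]; exact hn) u v
    rw [hd] at this
    exact this
  · haveI : Fact p.Prime := ⟨hp⟩
    rw [hmem f hf p hp]
    exact Finset.finite_toSet _
  · intro K _ _ θ p hp hexp s
    haveI : Fact p.Prime := ⟨hp⟩
    unfold eulerFactor
    congr 1
    set e := NumberField.Ideal.primesOverSpanEquivMonicFactorsMod hexp with he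
    have hmon : (minpoly ℤ θ).Monic := minpoly.monic θ.isIntegral
    have hset : primeDivisors (minpoly ℤ θ) p =
        (RingOfIntegers.monicFactorsMod θ p : Set (ZMod p)[X]) := by
      rw [hmem _ hmon p hp]
      rfl
    rw [hset, ← finprod_set_coe_eq_finprod_mem, ← finprod_set_coe_eq_finprod_mem]
    symm
    refine finprod_eq_of_bijective e e.bijective fun P => ?_
    obtain ⟨Q, rfl⟩ := e.symm.surjective P
    rw [Equiv.apply_symm_apply]
    have h1 := NumberField.Ideal.inertiaDeg_primesOverSpanEquivMonicFactorsMod_symm_apply' hexp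
      Q.2
    have hlo := (e.symm Q).2.2
    have hpr := (e.symm Q).2.1
    have h2 := Ideal.natAbs_pow_inertiaDeg (p : ℤ) (e.symm Q : Ideal (𝓞 K))
    rw [Int.natAbs_natCast] at h2
    rw [← h2]
    have h3 : (e.symm Q : Ideal (𝓞 K)).inertiaDeg ℤ = (Q : (ZMod p)[X]).natDegree := h1
    rw [h3]
    push_cast
    rw [← Real.rpow_natCast, ← Real.rpow_mul (Nat.cast_nonneg _), mul_neg]
  intro ε A hε hA
  obtain ⟨k, C', hk, hmain⟩ := Pool.Agent.N430.BP.main_poly hn hε hA
  refine ⟨k, C', hk, fun f₀ hf₀ hd N hN U V l hl => ?_⟩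
  set s : Pool.Agent.N430.BP.SP n := (⟨f₀, hf₀, hd⟩, fun _ => (U, V)) with hs
  refine le_trans ?_ (hmain N hN s l hl)
  have hlog : ∀ (f : ℤ[X]), f.Monic → ∀ x : ℕ, Real.log (centralProduct f x) =
      ∑ p ∈ Pool.Agent.N430.BP.Pr x, Pool.Agent.N430.BP.LLf f p := by
    intro f hf x
    unfold centralProduct
    rw [Real.log_prod fun p hp => ((hlogfac f hf p (mem_filter.1 hp).2).1).ne']
    exact Finset.sum_congr rfl fun p hp => (hlogfac f hf p (mem_filter.1 hp).2).2
  set Exc := (Pool.Agent.N430.BP.BX 1 N).filter fun ω : Pool.Agent.N430.BP.Pt 1 =>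
      ∃ x : ℕ, 16 ≤ x ∧ x ^ k ≤ N ∧
        l * Real.log (Real.log x) ^ (1 / 2 : ℝ) * (1 + Real.log (Real.log (Real.log x))) ^ ε <
          |∑ p ∈ Pool.Agent.N430.BP.Pr x,
            Pool.Agent.N430.BP.LLf (Pool.Agent.N430.BP.famP s.1.1 s.2 ω) p -
              1 / 2 * Real.log (Real.log x)| with hExc
  have hsub : {w : ℤ × ℤ | U < w.1 ∧ w.1 ≤ U + N ∧ V < w.2 ∧ w.2 ≤ V + N ∧
          ∃ x : ℕ, 16 ≤ x ∧ x ^ k ≤ N ∧
            l * Real.log (Real.log x) ^ (1 / 2 : ℝ) *
              (1 + Real.log (Real.log (Real.log x))) ^ ε <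
              |Real.log (centralProduct (f₀ + C w.1 * X + C w.2) x) -
                1 / 2 * Real.log (Real.log x)|} ⊆
      ((Exc.image fun ω : Pool.Agent.N430.BP.Pt 1 => (U + ((ω 0).1 : ℤ), V + ((ω 0).2 : ℤ)) :
        Finset (ℤ × ℤ)) : Set (ℤ × ℤ)) := by
    rintro w ⟨h1, h2, h3, h4, x, hx16, hxN, hx⟩
    rw [Finset.coe_image, Set.mem_image]
    have e1 : U + ((w.1 - U).toNat : ℤ) = w.1 := by
      rw [Int.toNat_of_nonneg (by omega)]
      ring
    have e2 : V + ((w.2 - V).toNat : ℤ) = w.2 := by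
      rw [Int.toNat_of_nonneg (by omega)]
      ring
    refine ⟨fun _ => ((w.1 - U).toNat, (w.2 - V).toNat), ?_, Prod.ext e1 e2⟩
    rw [Finset.mem_coe, hExc, Finset.mem_filter, Pool.Agent.N430.BP.mem_BX]
    refine ⟨fun j => ?_, x, hx16, hxN, ?_⟩
    · dsimp only
      refine ⟨⟨by omega, by omega⟩, ⟨by omega, by omega⟩⟩
    · have e3 : Pool.Agent.N430.BP.famP s.1.1 s.2 (fun _ => ((w.1 - U).toNat, (w.2 - V).toNat)) =
          f₀ + C w.1 * X + C w.2 := by
        unfold Pool.Agent.N430.BP.famP Pool.Agent.N430.BP.sh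
        rw [hs]
        simp only
        rw [e1, e2]
      rw [e3]
      have hmon := (Pool.Agent.N430.BP.fam_monic' hf₀ (by rw [hd]; exact hn) w.1 w.2).1
      rw [hlog _ hmon] at hx
      exact hx
  have h5 := Set.ncard_le_ncard hsub (Finset.finite_toSet _)
  rw [Set.ncard_coe_finset] at h5
  have h6 := h5.trans Finset.card_image_le
  exact_mod_cast h6

end Pool.Agent.Results.MP_3b6604_nt.CentralProductsOfPolynomials
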