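import Pool.Agent.N804.LI.Key
import Pool.Agent.N804.LI.GlueF
import Pool.Agent.N804.LI.GlueM

/-!
# Linear independence, central zeros and root numbers as one upper bound

A finite family of L-functions closed under duality, for instance the Artin L-functions of all the
irreducible characters of `Gal(F/ℚ)`.  The three statements (i), (ii), (iii) of the problem together with the
Riemann Hypothesis for the family are equivalent to one upper bound for one exponential moment of a sum over
primes.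
-/

open Filter Topology MeasureTheory
open scoped ComplexConjugate

namespace Pool.Agent.Results.MP_3b6604_nt.ExponentialMoment

/-- The Euler product: the Dirichlet series `-L'/L` has the coefficients `Λ(n) c(n)`, `L` the coefficients `b(n)`. -/
def EulerProduct (b c : ℕ → ℂ) : Prop := ∀ n : ℕ, n ≠ 0 → b n * ((Real.log n : ℝ) : ℂ) =
    ∑ d ∈ n.divisors, ((ArithmeticFunction.vonMangoldt d : ℝ) : ℂ) * c d * b (n / d)

/-- `Lam` is the completed function `(s (s - 1))^pole cond^{s/2} ∏ Γ_ℝ(s + a_j) L(s)`, `L(s) = ∑ b(n) n^{-s}`. -/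
def Completed (deg pole : ℕ) (cond : ℝ) (a : Fin deg → ℂ) (b : ℕ → ℂ) (Lam : ℂ → ℂ) : Prop :=
  ∃ σ : ℝ, ∀ s : ℂ, σ ≤ s.re → Lam s = (s * (s - 1)) ^ pole *
    ((cond : ℂ) ^ (s / 2) * ∏ j, Complex.Gammaℝ (s + a j)) * LSeries b s

/-- `Lam` is entire of finite order. -/
def FiniteOrder (Lam : ℂ → ℂ) : Prop := Differentiable ℂ Lam ∧
  ∃ A ρ : ℝ, ∀ s : ℂ, ‖Lam s‖ ≤ Real.exp (A * (1 + ‖s‖) ^ ρ)

/-- The functional equation with root number `w`. -/
def FunctionalEquation (w : ℂ) (Lam : ℂ → ℂ) : Prop := ‖w‖ = 1 ∧ ∀ s : ℂ, Lam s = w * conj (Lam (1 - conj s))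

/-- A completed L-function with an Euler product.  For the Artin L-function of `χ`: `deg = χ(1)`, `pole` is
`1` for the trivial character and `0` otherwise, `cond` is the conductor, `a j ∈ {0, 1}`, `c (p^k)` is the
trace of `Frob_p^k` on the inertia invariants, `w` is the root number `W(χ)`. -/
structure LFunction where
  /-- the degree -/
  deg : ℕ
  /-- the order of the pole at `1` -/
  pole : ℕ
  /-- the conductor -/
  cond : ℝ
  /-- the archimedean parameters -/
  a : Fin deg → ℂ
  /-- the coefficients of the Dirichlet series -/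
  b : ℕ → ℂ
  /-- the traces: the Dirichlet series of `-L'/L` has the coefficients `Λ(n) c(n)` -/
  c : ℕ → ℂ
  /-- the completed function `(s (s - 1))^pole cond^{s/2} ∏ Γ_ℝ(s + a_j) L(s)` -/
  Lam : ℂ → ℂ
  /-- the root number -/
  w : ℂ
  one_le_deg : 1 ≤ deg
  pole_le : pole ≤ deg
  one_le_cond : 1 ≤ cond
  re_a : ∀ j, -1 / 2 < (a j).re
  entire : FiniteOrder Lam
  feq : FunctionalEquation w Lam
  b_one : b 1 = 1
  c_le : ∀ n : ℕ, ‖c n‖ ≤ deg * (n : ℝ) ^ (1 / 2 : ℝ)
  conv : EulerProduct b c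
  series : Completed deg pole cond a b Lam

/-- a finite family closed under duality (`Irr(G)` with complex conjugation) -/
structure Family (I : Type) where
  /-- the L-functions -/
  L : I → LFunction
  /-- the dual -/
  dual : I → I
  dual_dual : ∀ i, dual (dual i) = i
  Lam_dual : ∀ i s, (L (dual i)).Lam s = conj ((L i).Lam (conj s))
  c_dual : ∀ i n, (L (dual i)).c n = conj ((L i).c n)

/-- the modified Bessel function `I₀(x) = ∫_0^1 exp (x cos 2πu) du` -/
noncomputable def I0 (x : ℝ) : ℝ := ∫ u in (0 : ℝ)..1, Real.exp (x * Real.cos (2 * Real.pi * u))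

/-- the normal density with standard deviation `ε` -/
noncomputable def g (ε v : ℝ) : ℝ := Real.exp (-(v ^ 2 / (2 * ε ^ 2))) / (ε * Real.sqrt (2 * Real.pi))

section
variable {I : Type} [Fintype I] (F : Family I)

/-- `P(y) = r e^{y/2 + ε²/8} - ∑ Λ(n) C(n) n^{-1/2} g_ε(y - log n)`, `r` the number of poles and `C(n)` the sum
of the traces of the family (a real number) -/
noncomputable def P (ε y : ℝ) : ℝ := (∑ i, ((F.L i).pole : ℝ)) * Real.exp (y / 2 + ε ^ 2 / 8) -
  ∑' n : ℕ, ArithmeticFunction.vonMangoldt n / Real.sqrt n * (∑ i, (F.L i).c n).re * g ε (y - Real.log n)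

/-- the exponential moment `(1/Y) ∫_0^Y exp (κ P(y)) dy` -/
noncomputable def M (ε κ Y : ℝ) : ℝ := (1 / Y) * ∫ y in (0 : ℝ)..Y, Real.exp (κ * P F ε y)

/-- order of vanishing at `s` -/
noncomputable def mult (i : I) (s : ℂ) : ℕ := analyticOrderNatAt (F.L i).Lam s

/-- `s` is a zero of the L-function with index `i` -/
def IsZ (i : I) (s : ℂ) : Prop := (F.L i).Lam s = 0

/-- the zeros of the family, repeated according to multiplicity -/
abbrev ZZ : Type := Σ i : I, Σ s : {s : ℂ // IsZ F i s}, Fin (mult F i s)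

/-- the ordinate of a zero -/
noncomputable def ordinate (k : ZZ F) : ℝ := (k.2.1 : ℂ).im

/-- the value for independent phases: the product over the positive ordinates -/
noncomputable def B (ε κ : ℝ) : ℝ :=
  ∏' k : {k : ZZ F // 0 < ordinate F k}, I0 (2 * κ * Real.exp (-(ε ^ 2 * ordinate F k ^ 2 / 2)))

/-- the Riemann Hypothesis for the family -/
def GRH : Prop := ∀ (i : I) (s : ℂ), IsZ F i s → s.re = 1 / 2

/-- statement (i) of the problem: the multiset of positive ordinates is linearly independent over `ℚ` -/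
def Indep : Prop := LinearIndependent ℚ (fun k : {k : ZZ F // 0 < ordinate F k} => ordinate F k)

open Classical in
/-- the least possible central order: `(1 - w)/2` if the L-function is self-dual, `0` otherwise -/
noncomputable def e (i : I) : ℕ := if F.dual i = i ∧ (F.L i).w = -1 then 1 else 0

/-- statements (ii) and (iii) of the problem: all central orders are the least possible ones -/
def Minimal : Prop := ∀ i, mult F i (1 / 2) = e F i

/-- the total central order -/
noncomputable def cent : ℝ := ∑ i, (mult F i (1 / 2) : ℝ)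

/-- the least possible total central order -/
noncomputable def least : ℝ := ∑ i, (e F i : ℝ)

/-- the upper limit of the exponential moment is at most `e^{κ m} B` -/
def Bound (ε κ m : ℝ) : Prop := ∀ δ : ℝ, 0 < δ → ∀ᶠ Y in atTop, M F ε κ Y ≤ Real.exp (κ * m) * B F ε κ + δ

/-- the L-function in the form of the library -/
@[reducible] noncomputable def toL (L : LFunction) : Pool.Agent.Y23.G.LFun where
  m := L.deg
  r := L.pole
  N := L.cond
  a := L.a
  b := L.b
  c := L.c
  X := L.Lam
  raw := ⟨L.one_le_deg, L.pole_le, L.one_le_cond, by norm_num, by norm_num, fun j => (L.re_a j).le, L.entire.1,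
    L.entire.2, ⟨L.w, L.feq.1, L.feq.2⟩, L.b_one, L.c_le, L.conv, L.series⟩
  str := L.re_a

open Pool.Agent.N804.LI

lemma fd : FD (IsZ F) (mult F) F.dual (fun i => toL (F.L i)) where
  inv := F.dual_dual
  z := fun _ _ => Iff.rfl
  o := fun _ _ _ => rfl
  cz := fun i s hs => by
    have hs : (F.L i).Lam s = 0 := hs
    show (F.L (F.dual i)).Lam (conj s) = 0
    rw [F.Lam_dual, Complex.conj_conj, hs, map_zero]
  co := fun i s hs => by
    have h1 : (F.L (F.dual i)).Lam = Pool.Agent.N56.LI_CJ.cj (F.L i).Lam := funext fun z => F.Lam_dual i z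
    unfold mult analyticOrderNatAt
    rw [h1, Pool.Agent.N56.LI_CJ.order_cj ((F.L i).entire.1.analyticAt _), Complex.conj_conj]

lemma sum_real (n : ℕ) : (((∑ i, (F.L i).c n).re : ℝ) : ℂ) = ∑ i, (F.L i).c n := by
  have h : conj (∑ i, (F.L i).c n) = ∑ i, (F.L i).c n := by
    rw [map_sum]
    let e : I ≃ I := ⟨F.dual, F.dual, F.dual_dual, F.dual_dual⟩
    rw [← e.sum_comp]
    refine Finset.sum_congr rfl fun i _ => ?_
    show conj ((F.L (F.dual i)).c n) = _
    rw [F.c_dual, Complex.conj_conj]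
  exact Complex.conj_eq_iff_re.1 h

lemma g_sum (L : Pool.Agent.Y23.G.LFun) {ε : ℝ} (hε : 0 < ε) (y : ℝ) :
    Summable (fun n : ℕ => Pool.Agent.Y23.G.aL (L := L) n * (gs ε (y - Real.log n) : ℂ)) := by
  have hs := (Pool.Agent.Y23.G.lam_sum).mul_left (L.m * ((ε * Real.sqrt (2 * Real.pi))⁻¹ * Real.exp (2 * ε ^ 2 + 2 * y)))
  refine Summable.of_norm_bounded hs fun n => ?_
  rcases Nat.eq_zero_or_pos n with h0 | h0
  · subst h0
    rw [Pool.Agent.Y23.G.aL_zero]; simp
  · rw [norm_mul]
    have h1 := Pool.Agent.Y23.G.aL_norm (L := L) n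
    have h2 : ‖(gs ε (y - Real.log n) : ℂ)‖ ≤ (ε * Real.sqrt (2 * Real.pi))⁻¹ * Real.exp (2 * ε ^ 2 + 2 * y) *
        (n : ℝ) ^ (-(2 : ℝ)) := by
      have hp : 0 < ε * Real.sqrt (2 * Real.pi) := by positivity
      rw [Complex.norm_real, gs, Real.norm_of_nonneg (by positivity), div_eq_mul_inv, mul_comm, mul_assoc]
      refine mul_le_mul_of_nonneg_left ?_ (by positivity)
      rw [← Pool.Agent.Y23.G.exp_log_pow h0, ← Real.exp_add]
      refine Real.exp_le_exp.2 ?_
      set v := y - Real.log n with hv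
      have h3 : 0 ≤ (v + 2 * ε ^ 2) ^ 2 / (2 * ε ^ 2) := by positivity
      have h4 : (v + 2 * ε ^ 2) ^ 2 / (2 * ε ^ 2) = v ^ 2 / (2 * ε ^ 2) + 2 * v + 2 * ε ^ 2 := by
        field_simp
        ring
      have h5 : Real.log n = y - v := by rw [hv]; ring
      rw [h5]
      linarith
    calc _ ≤ (L.m * ArithmeticFunction.vonMangoldt n) * ((ε * Real.sqrt (2 * Real.pi))⁻¹ *
          Real.exp (2 * ε ^ 2 + 2 * y) * (n : ℝ) ^ (-(2 : ℝ))) :=
          mul_le_mul h1 h2 (norm_nonneg _) (mul_nonneg (Nat.cast_nonneg _) ArithmeticFunction.vonMangoldt_nonneg)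
      _ = _ := by ring

lemma P_eq {ε : ℝ} (hε : 0 < ε) (y : ℝ) : (P F ε y : ℂ) = ∑ i, PL (toL (F.L i)) ε y := by
  unfold P PL
  rw [Finset.sum_sub_distrib, ← Summable.tsum_finsetSum (fun i _ => g_sum (toL (F.L i)) hε y)]
  push_cast
  congr 1
  · rw [Finset.sum_mul]
    rfl
  · refine tsum_congr fun n => ?_
    have e1 : ∀ i, Pool.Agent.Y23.G.aL (L := toL (F.L i)) n =
        ((ArithmeticFunction.vonMangoldt n / Real.sqrt n : ℝ) : ℂ) * (F.L i).c n := fun i =>
      aL_eq (toL (F.L i)) (fun _ => rfl)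
    simp only [e1]
    rw [← Finset.sum_mul, ← Finset.mul_sum, ← sum_real]
    push_cast
    rfl

open Classical in
lemma half_order (i : I) : (if IsZ F i (1 / 2) then (mult F i (1 / 2) : ℝ) else 0) = mult F i (1 / 2) := by
  split_ifs with h
  · rfl
  · have h : (F.L i).Lam (1 / 2) ≠ 0 := h
    unfold mult analyticOrderNatAt
    rw [((F.L i).entire.1.analyticAt _).analyticOrderAt_eq_zero.2 h]
    simp

lemma e_le (i : I) : e F i ≤ mult F i (1 / 2) := by
  unfold e
  split_ifs with h
  · obtain ⟨h1, h2⟩ := h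
    have h3 : (F.L i).Lam (1 / 2) = 0 := by
      have h4 := (F.L i).feq.2 (1 / 2)
      have h5 := F.Lam_dual i (1 / 2)
      have h6 : conj (1 / 2 : ℂ) = 1 / 2 := by
        rw [show (1 / 2 : ℂ) = ((1 / 2 : ℝ) : ℂ) by norm_num, Complex.conj_ofReal]
      rw [h1, h6] at h5
      rw [h6, h2, show (1 - 1 / 2 : ℂ) = 1 / 2 by norm_num, ← h5] at h4
      have h7 : (2 : ℂ) * (F.L i).Lam (1 / 2) = 0 := by linear_combination h4
      simpa using h7
    exact n_pos (p := IsZ F) (n := mult F) zr (fd F) h3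
  · exact Nat.zero_le _

/-- For every family, `ε, κ > 0`: (1) the Riemann Hypothesis for the family, (i), (ii) and (iii) hold
together iff the upper limit of the exponential moment is at most `e^{κ E} B`, `E = ∑ e_i` the least possible
total central order; (2) the Riemann Hypothesis and (i) hold together iff it is at most `e^{κ m} B`, `m` the
total central order; (3) under the Riemann Hypothesis the moment converges, the limit is at least `e^{κ m} B`,
and equality holds iff (i) holds. -/
theorem result (ε κ : ℝ) (hε : 0 < ε) (hκ : 0 < κ) :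
    ((GRH F ∧ Indep F ∧ Minimal F) ↔ Bound F ε κ (least F)) ∧
    ((GRH F ∧ Indep F) ↔ Bound F ε κ (cent F)) ∧
    (GRH F → ∃ E : ℝ, Tendsto (M F ε κ) atTop (𝓝 E) ∧ Real.exp (κ * cent F) * B F ε κ ≤ E ∧
      (E = Real.exp (κ * cent F) * B F ε κ ↔ Indep F)) := by
  unfold Bound least cent
  have hPc : Continuous (P F ε) := by
    have h1 : Continuous (fun y => ∑ i, PL (toL (F.L i)) ε y) :=
      continuous_finsetSum _ fun i _ => (ef (toL (F.L i)) ε hε).1
    refine (Complex.continuous_re.comp h1).congr fun y => ?_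
    rw [Function.comp, ← P_eq F hε, Complex.ofReal_re]
  have hP : Tendsto (fun y : ℝ => (P F ε y : ℂ) - ∑ i, PL (toL (F.L i)) ε y) atTop (𝓝 0) := by
    refine tendsto_const_nhds.congr fun y => ?_
    rw [P_eq F hε, sub_self]
  have hy := fam_hyp ef zr (fd F) hε hPc hP
  obtain ⟨h1, -⟩ := hy.concl abs hε hκ
  have hk := Hyp.key mean pert hκ hy
  have hm : m0 (fun k : ZZ F => (k.2.1 : ℂ)) (fun _ => 1) = ∑ i, (mult F i (1 / 2) : ℝ) := by
    refine (m0_kk zr (fd F)).trans (Finset.sum_congr rfl fun i _ => ?_)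
    exact half_order F i
  have hnp : ∀ i s, IsZ F i s → 0 < mult F i s := fun i s hs => n_pos (p := IsZ F) (n := mult F) zr (fd F) hs
  have hG : GRH F ↔ ∀ k : ZZ F, (k.2.1 : ℂ).re = 1 / 2 :=
    ⟨fun h k => h k.1 k.2.1 k.2.1.2, fun h i s hs => h ⟨i, ⟨s, hs⟩, ⟨0, hnp i s hs⟩⟩⟩
  have hR : ∀ m : ℝ, RH0 (fun k : ZZ F => (k.2.1 : ℂ)) (fun _ => 1) ε κ m = Real.exp (κ * m) * B F ε κ := by
    intro m
    unfold RH0 B
    congr 1
    refine tprod_congr fun k => ?_
    rw [one_mul]
    rfl
  have hmin : Minimal F ↔ m0 (fun k : ZZ F => (k.2.1 : ℂ)) (fun _ => 1) = ∑ i, (e F i : ℝ) := by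
    rw [hm]
    constructor
    · intro h
      exact Finset.sum_congr rfl fun i _ => by rw [h i]
    · intro h i
      have h2 := (Finset.sum_eq_sum_iff_of_le (s := Finset.univ) (f := fun i => (e F i : ℝ))
        (g := fun i => (mult F i (1 / 2) : ℝ)) (fun i _ => by exact_mod_cast e_le F i)).1 h.symm i (Finset.mem_univ _)
      exact_mod_cast h2.symm
  have hle : ∑ i, (e F i : ℝ) ≤ m0 (fun k : ZZ F => (k.2.1 : ℂ)) (fun _ => 1) := by
    rw [hm]
    exact Finset.sum_le_sum fun i _ => by exact_mod_cast e_le F i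
  refine ⟨?_, ?_, fun hGRH => ?_⟩
  · have h3 := h1 _ hle
    simp only [hR] at h3
    rw [hG, hmin]
    exact h3
  · have h3 := h1 _ le_rfl
    simp only [hR] at h3
    rw [hm] at h3
    rw [hG]
    refine Iff.trans ?_ h3
    constructor
    · rintro ⟨a, b⟩; exact ⟨a, b, by trivial⟩
    · rintro ⟨a, b, -⟩; exact ⟨a, b⟩
  · obtain ⟨E, h3, h4, h5⟩ := hk (hG.1 hGRH)
    rw [hR, hm] at h4 h5
    exact ⟨E, h3, h4, h5⟩

end

end Pool.Agent.Results.MP_3b6604_nt.ExponentialMoment
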