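import Mathlib
import Pool.Agent.N782.VD

set_option autoImplicit false

/-!
# Statement (ii) for the quadratic fields of prime discriminant

For a fundamental discriminant `D` the nontrivial character of `Gal(ℚ(√D)/ℚ)` is orthogonal and
its Artin L-function is the Dirichlet L-function of the Kronecker character `(D / ·)` of conductor
`|D|`. In each of the eight families of discriminants `±p`, `±4p`, `±8p` with `p` prime, for at
least 23.3 percent of the primes statement (ii) of the problem holds for `F = ℚ(√D)`: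
`L(1/2, χ, F/ℚ) ≠ 0` for the nontrivial irreducible character `χ` of `Gal(F/ℚ)`.

Proof: mollified first moment over the primes themselves, and Selberg's sieve majorant of the
primes applied to the variance of the mollified value (directory `Pool/Agent/N782`).
-/

namespace Pool.Agent.Results.MP_3b6604_nt.PrimeDiscriminantFields

/-- `χ`, a Dirichlet character modulo `N = |D|`, is the primitive quadratic character `(D / ·)` of
the fundamental discriminant `D`: its value at every odd `n ≥ 1` is the Jacobi symbol `(D / n)`. -/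
def IsKronecker (D : ℤ) (N : ℕ) (χ : DirichletCharacter ℂ N) : Prop :=
  χ.IsPrimitive ∧ χ ^ 2 = 1 ∧ χ ≠ 1 ∧
    ∀ n : ℕ, Odd n → χ (n : ZMod N) = ((jacobiSym D n : ℤ) : ℂ)

/-- The families of discriminants `D = c p`, `p ≡ a (mod m)` prime: `8p`, `-8p` (all odd `p`),
`4p` (`p ≡ 3 mod 4`), `-4p` (`p ≡ 1 mod 4`), `p` (`p ≡ 1` or `5 mod 8`), `-p` (`p ≡ 3` or
`7 mod 8`). -/
def Family (c : ℤ) (m a : ℕ) : Prop :=
  ((c = 8 ∨ c = -8) ∧ m = 2 ∧ a = 1) ∨ (c = 4 ∧ m = 4 ∧ a = 3) ∨ (c = -4 ∧ m = 4 ∧ a = 1) ∨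
    (c = 1 ∧ m = 8 ∧ (a = 1 ∨ a = 5)) ∨ (c = -1 ∧ m = 8 ∧ (a = 3 ∨ a = 7))

/-- The primes `p ≤ X` with `p ≡ a (mod m)`. -/
def PrimesMod (m a X : ℕ) : Set ℕ := {p | p ≤ X ∧ p.Prime ∧ p % m = a}

/-- The primes `p ≤ X`, `p ≡ a (mod m)`, for which `L(1/2,χ) ≠ 0`, where `χ = (cp / ·)` modulo
`|c|p`, the character which belongs to the quadratic field of discriminant `cp`. -/
def NonvanishingPrimes (c : ℤ) (m a X : ℕ) : Set ℕ :=
  {p | p ≤ X ∧ p.Prime ∧ p % m = a ∧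
    ∃ (_ : NeZero (c.natAbs * p)) (χ : DirichletCharacter ℂ (c.natAbs * p)),
      IsKronecker (c * p) (c.natAbs * p) χ ∧ DirichletCharacter.LFunction χ (1 / 2) ≠ 0}

open Pool.Agent.H306R2.RZ Pool.Agent.H306R2.RG Pool.Agent.N782.V

theorem one {φ : FD} (h : Fam φ) (r : ℕ) (hr : φ.r = r) (c : ℤ) (m a : ℕ)
    (hA : ∀ p : ℕ, p.Prime → (φ.A p ↔ p % m = a))
    (hc : ∀ p n : ℕ, Odd n → jacobiSym (φ.e * p) n = jacobiSym (c * p) n) :
    ∃ X0 : ℕ, ∀ X : ℕ, X0 ≤ X → (233 / 1000 : ℝ) * ((PrimesMod m a X).ncard : ℝ) ≤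
      (({p | p ≤ X ∧ p.Prime ∧ p % m = a ∧
        ∃ (_ : NeZero (r * p)) (χ : DirichletCharacter ℂ (r * p)),
        IsKronecker (c * p) (r * p) χ ∧ DirichletCharacter.LFunction χ (1 / 2) ≠ 0} :
          Set ℕ).ncard : ℝ) := by
  subst hr
  obtain ⟨X1, h1⟩ := centAll h
  have hC := Pool.Agent.H306R2.RG.LnkC.CGF φ h
  refine ⟨X1, fun X hX => ?_⟩
  refine gen (φ := φ) (233 / 1000) 0 m a (fun p => LLg φ p (1 / 2) ≠ 0)
    (fun p N _ χ => IsKronecker (c * p) N χ ∧ DirichletCharacter.LFunction χ (1 / 2) ≠ 0)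
    hA ?_ X _ rfl ?_
  · intro p hp hAp hG
    obtain ⟨hN, χ, c1, c2, c3, c4, c5⟩ := hC.chi p hAp hp.squarefree
    refine ⟨hN, χ, ⟨c1, c2, c3, fun n hn => ?_⟩, ?_⟩
    · have hn0 : n ≠ 0 := by
        rintro rfl
        exact absurd hn (by decide)
      rw [c4 n hn0, cf_odd φ p n hn, ← hc p n hn]
      unfold js
      norm_cast
    · have h5 := c5 (1 / 2) (by norm_num)
      have h6 : (((1 / 2 : ℝ)) : ℂ) = 1 / 2 := by norm_num
      rw [h6] at h5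
      rw [h5]
      exact_mod_cast hG
  · have h2 := h1 X hX
    rw [filter_ncard] at h2
    exact h2

/-- **Theorem.** Let `D = c p` run over one of the eight families of fundamental discriminants
`8p`, `-8p`, `4p`, `-4p`, `p` (`p ≡ 1` or `5 mod 8`), `-p` (`p ≡ 3` or `7 mod 8`), with `p` prime.
For all large `X`, at least 23.3 percent of the primes `p ≤ X` of the family are such that
`L(1/2,χ) ≠ 0`, where `χ` is the primitive quadratic character `(D / ·)` of conductor `|D|`. -/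
theorem result (c : ℤ) (m a : ℕ) (h : Family c m a) : ∃ X0 : ℕ, ∀ X : ℕ, X0 ≤ X →
    (233 / 1000 : ℝ) * ((PrimesMod m a X).ncard : ℝ) ≤
      ((NonvanishingPrimes c m a X).ncard : ℝ) := by
  have h8 : ∀ ε : ℤ, ∀ p n : ℕ, Odd n →
      jacobiSym ((F8 ε).e * p) n = jacobiSym ((8 * ε) * p) n := by
    intro ε p n hn
    rw [← js_four _ n hn]
    congr 1
    show 4 * ((2 * ε) * (p : ℤ)) = 8 * ε * p
    ring
  have h4 : ∀ ε : ℤ, ∀ p n : ℕ, Odd n →
      jacobiSym ((F4 ε).e * p) n = jacobiSym ((4 * ε) * p) n := by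
    intro ε p n hn
    rw [← js_four _ n hn]
    congr 1
    show 4 * (ε * (p : ℤ)) = 4 * ε * p
    ring
  rcases h with ⟨rfl | rfl, rfl, rfl⟩ | ⟨rfl, rfl, rfl⟩ | ⟨rfl, rfl, rfl⟩ |
    ⟨rfl, rfl, rfl | rfl⟩ | ⟨rfl, rfl, rfl | rfl⟩
  · exact one (φ := F8 1) ⟨1, Or.inl rfl, Or.inl rfl⟩ 8 rfl 8 2 1 (A8 1) (h8 1)
  · exact one (φ := F8 (-1)) ⟨-1, Or.inr rfl, Or.inl rfl⟩ 8 rfl (-8) 2 1 (A8 (-1)) (h8 (-1))
  · exact one (φ := F4 1) ⟨1, Or.inl rfl, Or.inr (Or.inl rfl)⟩ 4 rfl 4 4 3 A4p (h4 1)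
  · exact one (φ := F4 (-1)) ⟨-1, Or.inr rfl, Or.inr (Or.inl rfl)⟩ 4 rfl (-4) 4 1 A4m (h4 (-1))
  · exact one (φ := F1 1 1) ⟨1, Or.inl rfl, Or.inr (Or.inr (Or.inl rfl))⟩ 1 rfl 1 8 1
      (fun p hp => by rw [A1 1 1 (Or.inl rfl) p hp]; omega) (fun p n _ => rfl)
  · exact one (φ := F1 1 5) ⟨1, Or.inl rfl, Or.inr (Or.inr (Or.inr rfl))⟩ 1 rfl 1 8 5
      (fun p hp => by rw [A1 1 5 (Or.inl rfl) p hp]; omega) (fun p n _ => rfl)
  · exact one (φ := F1 (-1) 5) ⟨-1, Or.inr rfl, Or.inr (Or.inr (Or.inr rfl))⟩ 1 rfl (-1) 8 3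
      (fun p hp => by rw [A1 (-1) 5 (Or.inr rfl) p hp]; omega) (fun p n _ => rfl)
  · exact one (φ := F1 (-1) 1) ⟨-1, Or.inr rfl, Or.inr (Or.inr (Or.inl rfl))⟩ 1 rfl (-1) 8 7
      (fun p hp => by rw [A1 (-1) 1 (Or.inr rfl) p hp]; omega) (fun p n _ => rfl)

end Pool.Agent.Results.MP_3b6604_nt.PrimeDiscriminantFields
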